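import Pool.Agent.Y820.LL.Stm
import Pool.Agent.Y820.LT.P
import Pool.Agent.TH894.CW2

set_option autoImplicit false

/-!
# Project LL, task P: autocorrelations of a nice function at differences of random sums
-/

namespace Pool.Agent.Y820.LL.P932
open Finset
open Pool.Agent.H807R2.Dav
open Pool.Agent.H373R2.T7
open Pool.Agent.W93.DG
open Pool.Agent.W93.HD
open Pool.Agent.W93.RD (EE)
open Pool.Agent.TH894.CW
open Pool.Agent.TH894.SM (Ph dl dl_abs Om nw card_Om Pos mu mu_pos Ph_le cor cor_FF)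

lemma Gu_nat (u : ℕ → ℝ) (X a : ℕ) (h1 : 1 ≤ a) (h2 : a ≤ X) : Gu u X (a : ℤ) = u a := by
  unfold Gu uI
  rw [if_pos (by exact_mod_cast h2), if_pos (by exact_mod_cast h1), Int.toNat_natCast]

lemma Gu_lt (u : ℕ → ℝ) (X : ℕ) (n : ℤ) (h : n < 1) : Gu u X n = 0 := by
  unfold Gu uI
  rw [if_neg (by omega : ¬ 1 ≤ n), ite_self]

lemma Gu_gt (u : ℕ → ℝ) (X : ℕ) (n : ℤ) (h : (X : ℤ) < n) : Gu u X n = 0 := by
  unfold Gu
  rw [if_neg (by omega)]

/-- the autocorrelation -/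
lemma PCu_cor (u : ℕ → ℝ) (X : ℕ) (h : ℤ) : PCu u X h = cor u X h := by
  unfold PCu cor
  rw [sum_comm]
  symm
  refine sum_nbij' (fun a : ℕ => (a : ℤ)) (fun m : ℤ => m.toNat) ?_ ?_ ?_ ?_ ?_
  · intro a ha
    rw [mem_Icc] at ha ⊢
    omega
  · intro m hm
    rw [mem_Icc] at hm ⊢
    omega
  · intro a _
    simp
  · intro m hm
    rw [mem_Icc] at hm
    exact Int.toNat_of_nonneg (by omega)
  · intro a' ha'
    rw [mem_Icc] at ha'
    rw [Gu_nat u X a' ha'.1 ha'.2]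
    by_cases h1 : (a' : ℤ) + h < 1
    · rw [Gu_lt _ _ _ h1, mul_zero]
      apply sum_eq_zero
      intro a ha
      rw [mem_Icc] at ha
      rw [if_neg (by omega)]
    by_cases h2 : (X : ℤ) < a' + h
    · rw [Gu_gt _ _ _ h2, mul_zero]
      apply sum_eq_zero
      intro a ha
      rw [mem_Icc] at ha
      rw [if_neg (by omega)]
    obtain ⟨y, hy⟩ : ∃ y : ℕ, (y : ℤ) = a' + h := ⟨((a' : ℤ) + h).toNat, by omega⟩
    rw [← hy, Gu_nat u X y (by omega) (by omega), sum_eq_single y, if_pos (by omega)]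
    · ring
    · intro a _ hne
      rw [if_neg (by omega)]
    · intro h'
      exfalso
      apply h'
      rw [mem_Icc]
      omega

lemma PCu_out (u : ℕ → ℝ) (X : ℕ) (h : ℤ) (hh : (X : ℤ) ≤ |h|) : PCu u X h = 0 := by
  unfold PCu
  apply sum_eq_zero
  intro m hm
  rw [mem_Icc] at hm
  rcases le_abs'.mp hh with h1 | h1
  · rw [Gu_lt u X (m + h) (by omega), mul_zero]
  · rw [Gu_gt u X (m + h) (by omega), mul_zero]

/-- the weight of the frequencies -/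
noncomputable def Vv (u : ℕ → ℝ) (X M : ℕ) (y : ℤ) (r : ℕ) : ℂ :=
  ((‖FF u X M r‖ ^ 2 : ℝ) : ℂ) * ee ((y : ℝ) * ((r : ℝ) / (M : ℝ)))

lemma Vv_norm (u : ℕ → ℝ) (X M : ℕ) (y : ℤ) (r : ℕ) : ‖Vv u X M y r‖ = ‖FF u X M r‖ ^ 2 := by
  unfold Vv
  rw [norm_mul, norm_ee, mul_one, Complex.norm_real, Real.norm_of_nonneg (sq_nonneg _)]

lemma PCu_EE (u : ℕ → ℝ) (X M : ℕ) (hX : 1 ≤ X) (hM : 2 * X ≤ M) (y v : ℤ) :
    (M : ℝ) ^ 2 * PCu u X (v - y) ^ 2 ≤ ‖EE (Vv u X M y) M v‖ ^ 2 := by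
  rcases lt_or_ge |v - y| (X : ℤ) with h | h
  · have h1 := cor_FF u X M (by omega) (v - y) (by omega)
    have h2 : EE (Vv u X M y) M v = ((M * cor u X (v - y) : ℝ) : ℂ) := by
      rw [← h1]
      unfold EE Vv
      apply sum_congr rfl
      intro r _
      rw [mul_assoc, ← ee_add]
      congr 2
      push_cast
      ring
    rw [h2, Complex.norm_real, Real.norm_eq_abs, sq_abs, mul_pow, PCu_cor]
  · rw [PCu_out u X _ h]
    have : (M : ℝ) ^ 2 * 0 ^ 2 = 0 := by ring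
    rw [this]
    positivity

end Pool.Agent.Y820.LL.P932

namespace Pool.Agent.Y820.LL
open Finset
open Pool.Agent.H807R2.Dav
open Pool.Agent.H373R2.T7
open Pool.Agent.W93.DG
open Pool.Agent.W93.HD
open Pool.Agent.W93.LM (FC FC_pars bad_sqC nice_liR)
open Pool.Agent.W93.RD (EE)
open Pool.Agent.TH894.CW
open Pool.Agent.TH894.SM (Ph dl dl_abs Om nw card_Om Pos mu mu_pos Ph_le cor cor_FF)
open Pool.Agent.Y820.LL.P932

theorem t_Pu (u : ℕ → ℝ) (hu : Pool.Agent.W93.LM.Nice (fun n => (u n : ℂ))) : S_Pu u := by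
  classical
  intro b hb
  have hbn : 0 < b := by omega
  have hb1 : 1 < b := by omega
  obtain ⟨R, hR, hbad⟩ := bad_sqC b hb
  obtain ⟨A, hUA, k1, h1⟩ := hbad (fun n => (u n : ℂ)) hu (mu b) 3
  obtain ⟨η, hη0, hη1, hcore⟩ := core b hb R hR
  obtain ⟨k0, h0⟩ := hcore A hUA
  refine ⟨R, A, hR, hUA, fun δ hδ => ?_⟩
  obtain ⟨t₀, ht₀⟩ := pow_small η (δ / 2) hη0 hη1 (by positivity)
  refine ⟨t₀ + 4, fun t ht => ?_⟩
  obtain ⟨k4, h4⟩ := hh_small b A (512 * b) hb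
  obtain ⟨k5, hk5⟩ := exists_nat_ge (2 / δ)
  refine ⟨k0 + k1 + k4 + k5 + 256 * b + 64, fun K hK e he J hJ => ?_⟩
  have hK8 : (64 : ℝ) ≤ K := by exact_mod_cast (by omega : 64 ≤ K)
  have hK0 : (0 : ℝ) < K := by linarith
  have hK1 : (1 : ℝ) ≤ K := by linarith
  have hXM : b ^ K ≤ b ^ (K + 1) := Nat.pow_le_pow_right hbn (by omega)
  have h512 : 512 * 2 * hh b A K ≤ 512 * b * hh b A K :=
    Nat.mul_le_mul_right _ (Nat.mul_le_mul_left _ hb)
  have hgK := h4 K (by omega)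
  have hh1 : 1 ≤ hh b A K := by
    unfold hh
    exact Nat.mul_pos (by omega) (by omega)
  obtain ⟨hJc, -⟩ := Pos_card b R K (hh b A K) J hR hh1 (by omega) hJ
  have hbadK := h1 K (by omega)
  have hcoreK := h0 K (by omega) 0 e he J hJ t (by omega)
  have hp := ht₀ t (by omega)
  have hX1 : 1 ≤ b ^ K := Nat.one_le_pow _ _ hbn
  have h2X : 2 * b ^ K ≤ b ^ (K + 1) := by rw [pow_succ']; exact Nat.mul_le_mul_right _ hb
  obtain ⟨X, hX⟩ : ∃ X, X = b ^ K := ⟨_, rfl⟩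
  obtain ⟨M, hM⟩ : ∃ M, M = b ^ (K + 1) := ⟨_, rfl⟩
  rw [← hX, ← hM] at h2X hXM
  rw [← hX] at hX1 hbadK ⊢
  rw [← hM] at hbadK hcoreK
  have hX0 : (0 : ℝ) < X := by exact_mod_cast hX1
  have hM0 : (0 : ℝ) < M := by exact_mod_cast (by omega : 0 < M)
  have hmass : ∑ r ∈ range M, ‖FF u X M r‖ ^ 2 ≤ (M : ℝ) * X := by
    have e1 : ∀ r, FF u X M r = FC (fun n => (u n : ℂ)) X M r := fun r => rfl
    simp only [e1]
    rw [FC_pars _ _ _ (by omega) hXM]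
    apply mul_le_mul_of_nonneg_left _ hM0.le
    refine (sum_le_sum (fun n _ => pow_le_one₀ (norm_nonneg _) (hu.1 n))).trans (le_of_eq ?_)
    rw [sum_const, Nat.card_Icc, nsmul_eq_mul, Nat.add_sub_cancel, mul_one]
  obtain ⟨T, hT⟩ : ∃ T : ℝ, T = ((J 1).card : ℝ) := ⟨_, rfl⟩
  have hT0 : 0 < T := by rw [hT]; exact_mod_cast (by omega : 0 < (J 1).card)
  rw [← hT] at hcoreK
  -- the fourth moment
  have hf4 : ∑ r ∈ range M, ∑ r' ∈ range M, ‖FF u X M r‖ ^ 2 * ‖FF u X M r'‖ ^ 2 *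
      ‖Ph (dl b e) (J 1) (((r' : ℝ) - r) / (M : ℝ))‖ ^ 4 ≤ ((M : ℝ) * X) ^ 2 * T ^ 4 := by
    have e1 : ∀ r ∈ range M, ∀ r' ∈ range M, ‖FF u X M r‖ ^ 2 * ‖FF u X M r'‖ ^ 2 *
        ‖Ph (dl b e) (J 1) (((r' : ℝ) - r) / (M : ℝ))‖ ^ 4 ≤
        ‖FF u X M r‖ ^ 2 * ‖FF u X M r'‖ ^ 2 * T ^ 4 := by
      intro r _ r' _
      apply mul_le_mul_of_nonneg_left _ (by positivity)
      apply pow_le_pow_left₀ (norm_nonneg _)
      rw [hT]
      exact Ph_le _ _ _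
    refine (sum_le_sum fun r hr => sum_le_sum (e1 r hr)).trans ?_
    have e2 : ∑ r ∈ range M, ∑ r' ∈ range M, ‖FF u X M r‖ ^ 2 * ‖FF u X M r'‖ ^ 2 * T ^ 4 =
        (∑ r ∈ range M, ‖FF u X M r‖ ^ 2) ^ 2 * T ^ 4 := by
      rw [pow_two (∑ r ∈ range M, ‖FF u X M r‖ ^ 2), sum_mul_sum, sum_mul]
      apply sum_congr rfl
      intro r _
      rw [sum_mul]
    rw [e2]
    apply mul_le_mul_of_nonneg_right _ (by positivity)
    exact pow_le_pow_left₀ (sum_nonneg fun _ _ => by positivity) hmass 2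
  -- the second moment for a fixed `ω`
  have hone : ∀ y : ℤ, ∑ ω' ∈ Om J t, PCu u X (∑ c, dl b e (ω' c) - y) ^ 2 ≤
      δ * (X : ℝ) ^ 2 * (Om J t).card := by
    intro y
    have e1 := hcoreK (Vv u X M y) (M * X / (K : ℝ) ^ 3) (fun r hr S hS => by
      have e2 := hbadK (mu b * (M - r)) (mu b) (mu_pos b) ((Nat.lt_pow_self hb1).le) S hS
      simp only [Vv_norm]
      exact e2)
    simp only [Vv_norm] at e1
    have e3 : (M : ℝ) ^ 2 * ∑ ω' ∈ Om J t, PCu u X (∑ c, dl b e (ω' c) - y) ^ 2 ≤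
        ∑ ω' ∈ Om J t, ‖EE (Vv u X M y) M (nw b 0 e ω')‖ ^ 2 := by
      rw [mul_sum]
      apply sum_le_sum
      intro ω' _
      have e4 := PCu_EE u X M hX1 h2X y (nw b 0 e ω')
      have e5 : nw b 0 e ω' = ∑ c, dl b e (ω' c) := by
        unfold nw
        simp
      rw [e5] at e4 ⊢
      exact e4
    have hη' : 0 ≤ (1 - η) ^ (t - 4) := pow_nonneg (by linarith) _
    have hpart1 : (M : ℝ) * X / (K : ℝ) ^ 3 * ∑ r ∈ range M, ‖FF u X M r‖ ^ 2 ≤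
        δ / 2 * (M * X) ^ 2 := by
      have e6 : 1 / (K : ℝ) ^ 3 ≤ δ / 2 := by
        have e4 : 2 / δ ≤ K := hk5.trans (by exact_mod_cast (by omega : k5 ≤ K))
        rw [div_le_iff₀ hδ] at e4
        have e5 : (K : ℝ) ≤ (K : ℝ) ^ 3 := le_self_pow₀ hK1 (by norm_num)
        rw [div_le_iff₀ (by positivity)]
        calc (1 : ℝ) ≤ δ / 2 * K := by linarith
          _ ≤ δ / 2 * (K : ℝ) ^ 3 := mul_le_mul_of_nonneg_left e5 (by positivity)
      calc _ ≤ (M : ℝ) * X / (K : ℝ) ^ 3 * (M * X) :=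
            mul_le_mul_of_nonneg_left hmass (by positivity)
        _ = (1 / (K : ℝ) ^ 3) * (M * X) ^ 2 := by ring
        _ ≤ _ := mul_le_mul_of_nonneg_right e6 (by positivity)
    have hpart2 : (1 - η) ^ (t - 4) / T ^ 4 * ∑ r ∈ range M, ∑ r' ∈ range M,
        ‖FF u X M r‖ ^ 2 * ‖FF u X M r'‖ ^ 2 *
        ‖Ph (dl b e) (J 1) (((r' : ℝ) - r) / (M : ℝ))‖ ^ 4 ≤ δ / 2 * (M * X) ^ 2 := by
      calc _ ≤ (1 - η) ^ (t - 4) / T ^ 4 * (((M : ℝ) * X) ^ 2 * T ^ 4) :=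
            mul_le_mul_of_nonneg_left hf4 (by positivity)
        _ = (1 - η) ^ (t - 4) * (M * X) ^ 2 := by field_simp
        _ ≤ _ := mul_le_mul_of_nonneg_right hp (by positivity)
    have e8 : (M : ℝ) ^ 2 * ∑ ω' ∈ Om J t, PCu u X (∑ c, dl b e (ω' c) - y) ^ 2 ≤
        (M : ℝ) ^ 2 * (δ * (X : ℝ) ^ 2 * (Om J t).card) := by
      refine e3.trans (e1.trans ?_)
      have e9 : (M : ℝ) ^ 2 * (δ * (X : ℝ) ^ 2 * (Om J t).card) =
          (δ * (M * X) ^ 2) * (Om J t).card := by ring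
      rw [e9]
      apply mul_le_mul_of_nonneg_right _ (Nat.cast_nonneg _)
      linarith
    exact le_of_mul_le_mul_left e8 (by positivity)
  calc ∑ ω ∈ Om J t, ∑ ω' ∈ Om J t, PCu u X (∑ c, dl b e (ω' c) - ∑ c, dl b e (ω c)) ^ 2
      ≤ ∑ ω ∈ Om J t, δ * (X : ℝ) ^ 2 * (Om J t).card := sum_le_sum fun ω _ => hone _
    _ = _ := by
      rw [sum_const, nsmul_eq_mul]
      ring

theorem t_Pli : S_Pu (fun n => (-1 : ℝ) ^ ArithmeticFunction.cardFactors n) := by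
  apply t_Pu
  have h : (fun n : ℕ => (((-1 : ℝ) ^ ArithmeticFunction.cardFactors n : ℝ) : ℂ)) = liR := by
    funext n
    unfold liR
    push_cast
    rfl
  rw [h]
  exact nice_liR

end Pool.Agent.Y820.LL
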