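import Pool.Agent.Y820.LL.A
import Pool.Agent.Y820.LF.CF1

set_option autoImplicit false

/-! The average of the singular factors, and sums over short ranges. -/

namespace Pool.Agent.Y820.LL
open Finset
open Pool.Agent.H373R2.T7 (lamI lamzI lamz Vz Vz_pos Vz_inv_small lamI_nonneg lamzI_nonneg)
open Pool.Agent.W93.HD (gg one_le_gg)
open Pool.Agent.TH894.SM (dl Om Pos)
open Pool.Agent.Y820.LT (S_R w wc w_nonneg Ch shf PP gam gam_le Blk shf_upd shf_upd_ne upd_sum psi_even prod_le_sum_pow)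
open Pool.Agent.Y820.LF (S_SBF ww ww_nonneg C1 H1 C1_zero C1_succ H1_zero H1_succ gam_romq)

/-- the singular factor of a discriminant -/
noncomputable def psi (κ : ℕ) (d : ℤ) : ℝ := if d = 0 then 0 else gg d.natAbs ^ κ

lemma psi_nonneg (κ : ℕ) (d : ℤ) : 0 ≤ psi κ d := by
  unfold psi
  split_ifs
  · exact le_rfl
  · exact pow_nonneg (zero_le_one.trans (one_le_gg _)) _

lemma psi_neg (κ : ℕ) (d : ℤ) : psi κ (-d) = psi κ d := psi_even (fun n => gg n ^ κ) d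

section
variable {s t t' : ℕ}

/-- an average over one coordinate -/
lemma coing2 (Ω : Finset (Fin 3 × Fin t → ℕ)) (Cs : Finset (Fin t' → ℕ)) (hCs : Cs.Nonempty) (f : (Fin s → Ch t t') → ℝ) (i : Fin s) (A : ℝ)
    (hz : ∀ x ∈ PP s Ω Cs, ∀ ω ∈ Ω, ∑ c ∈ Cs, f (Function.update x i (ω, c)) ≤ A * Cs.card) :
    ∑ x ∈ PP s Ω Cs, f x ≤ A * (PP s Ω Cs).card := by
  classical
  have h1 := upd_sum (fun _ : Fin s => Ω ×ˢ Cs) i f
  have h2 : ∀ x ∈ PP s Ω Cs, ∑ y ∈ Ω ×ˢ Cs, f (Function.update x i y) ≤ Ω.card * (A * Cs.card) := by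
    intro x hx
    rw [sum_product]
    refine (sum_le_sum (hz x hx)).trans (le_of_eq ?_)
    rw [sum_const, nsmul_eq_mul]
  have h3 := sum_le_sum h2
  unfold PP at h3 ⊢
  rw [h1, sum_const, nsmul_eq_mul, card_product, Nat.cast_mul] at h3
  rcases Ω.eq_empty_or_nonempty with h4 | h4
  · have h5 : Fintype.piFinset (fun _ : Fin s => Ω ×ˢ Cs) = ∅ := by
      rw [Fintype.piFinset_eq_empty]
      exact ⟨i, by simp [h4]⟩
    rw [h5]
    simp
  have h5 : (0 : ℝ) < Ω.card := by exact_mod_cast card_pos.2 h4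
  have h6 : (0 : ℝ) < Cs.card := by exact_mod_cast card_pos.2 hCs
  refine le_of_mul_le_mul_left (le_trans (le_of_eq ?_) (h3.trans (le_of_eq ?_))) (mul_pos h5 h6)
  · ring
  · ring

variable (κ b : ℕ) (e : Fin s → ℕ → ℤ) (q h : Fin s → ℤ)

/-- the singular factors of a system -/
noncomputable def B5 (x : Fin s → Ch t t') : ℝ :=
  ∑ p ∈ (univ : Finset (Fin (s + 1) × Fin (s + 1))).filter (fun p => p.1 ≠ p.2),
    psi κ (C1 q p.1 * H1 (fun i => shf b e h x i) p.2 - C1 q p.2 * H1 (fun i => shf b e h x i) p.1)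

lemma B5_nonneg (x : Fin s → Ch t t') : 0 ≤ B5 κ b e q h x := sum_nonneg fun _ _ => psi_nonneg _ _

lemma B5_one (Ω : Finset (Fin 3 × Fin t → ℕ)) (Cs : Finset (Fin t' → ℕ)) (hCs : Cs.Nonempty) (A : ℝ) (V W Q : ℤ) (hQ : 1 ≤ Q)
    (hq : ∀ i, q i ≠ 0 ∧ |q i| ≤ Q)
    (hV : ∀ i : Fin s, ∀ u : ℤ, u ≠ 0 → |u| ≤ Q → ∀ v : ℤ, |v| ≤ V → ∑ y ∈ Cs, psi κ (u * gam b (e i) y + v) ≤ A * Cs.card)
    (hW1 : ∀ x ∈ PP s Ω Cs, ∀ i, |shf b e h x i| ≤ W) (hW2 : ∀ i, ∀ ω ∈ Ω, |h i + gam b (e i) ω| ≤ W)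
    (hWV : 2 * Q * W ≤ V) (hW0 : 0 ≤ W) (p : Fin (s + 1) × Fin (s + 1)) (hp : p.1 ≠ p.2) :
    ∑ x ∈ PP s Ω Cs, psi κ (C1 q p.1 * H1 (fun i => shf b e h x i) p.2 - C1 q p.2 * H1 (fun i => shf b e h x i) p.1) ≤
      A * (PP s Ω Cs).card := by
  classical
  have hone : ∀ i : Fin s, ∑ x ∈ PP s Ω Cs, psi κ (shf b e h x i) ≤ A * (PP s Ω Cs).card := by
    intro i
    apply coing2 Ω Cs hCs (fun x => psi κ (shf b e h x i)) i A
    intro x _ ω hω
    refine le_trans (le_of_eq ?_) (hV i 1 one_ne_zero (by rw [abs_one]; exact hQ) (h i + gam b (e i) ω) ?_)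
    · apply sum_congr rfl
      intro c _
      rw [shf_upd]
      congr 1
      ring
    · refine (hW2 i ω hω).trans ?_
      nlinarith
  have htwo : ∀ i j : Fin s, i ≠ j → ∑ x ∈ PP s Ω Cs, psi κ (q i * shf b e h x j - q j * shf b e h x i) ≤ A * (PP s Ω Cs).card := by
    intro i j hij
    apply coing2 Ω Cs hCs (fun x => psi κ (q i * shf b e h x j - q j * shf b e h x i)) i A
    intro x hx ω hω
    refine le_trans (le_of_eq ?_) (hV i (-q j) (neg_ne_zero.2 (hq j).1) (by rw [abs_neg]; exact (hq j).2)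
      (q i * shf b e h x j - q j * (h i + gam b (e i) ω)) ?_)
    · apply sum_congr rfl
      intro c _
      rw [shf_upd, shf_upd_ne _ _ _ _ _ _ (Ne.symm hij)]
      congr 1
      ring
    · refine (abs_sub _ _).trans ?_
      rw [abs_mul, abs_mul]
      have h1 : |q i| * |shf b e h x j| ≤ Q * W := mul_le_mul (hq i).2 (hW1 x hx j) (abs_nonneg _) (by omega)
      have h2 : |q j| * |h i + gam b (e i) ω| ≤ Q * W := mul_le_mul (hq j).2 (hW2 i ω hω) (abs_nonneg _) (by omega)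
      linarith
  obtain ⟨p1, p2⟩ := p
  simp only at hp ⊢
  revert hp
  refine Fin.cases ?_ (fun i => ?_) p1
  · refine Fin.cases ?_ (fun j => ?_) p2
    · intro h; exact absurd rfl h
    · intro _
      simp only [C1_zero, H1_zero, C1_succ, H1_succ, one_mul, mul_zero, sub_zero]
      exact hone j
  · refine Fin.cases ?_ (fun j => ?_) p2
    · intro _
      simp only [C1_zero, H1_zero, C1_succ, H1_succ, one_mul, mul_zero, zero_sub, psi_neg]
      exact hone i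
    · intro hij
      simp only [C1_succ, H1_succ]
      exact htwo i j (fun h => hij (by rw [h]))

lemma B5_sum (Ω : Finset (Fin 3 × Fin t → ℕ)) (Cs : Finset (Fin t' → ℕ)) (hCs : Cs.Nonempty) (A : ℝ) (hA : 0 ≤ A) (V W Q : ℤ) (hQ : 1 ≤ Q)
    (hq : ∀ i, q i ≠ 0 ∧ |q i| ≤ Q)
    (hV : ∀ i : Fin s, ∀ u : ℤ, u ≠ 0 → |u| ≤ Q → ∀ v : ℤ, |v| ≤ V → ∑ y ∈ Cs, psi κ (u * gam b (e i) y + v) ≤ A * Cs.card)
    (hW1 : ∀ x ∈ PP s Ω Cs, ∀ i, |shf b e h x i| ≤ W) (hW2 : ∀ i, ∀ ω ∈ Ω, |h i + gam b (e i) ω| ≤ W)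
    (hWV : 2 * Q * W ≤ V) (hW0 : 0 ≤ W) :
    ∑ x ∈ PP s Ω Cs, B5 κ b e q h x ≤ (s + 1) ^ 2 * A * (PP s Ω Cs).card := by
  classical
  unfold B5
  rw [sum_comm]
  refine (sum_le_sum (g := fun _ => A * (PP s Ω Cs).card) fun p hp => ?_).trans ?_
  · exact B5_one κ b e q h Ω Cs hCs A V W Q hQ hq hV hW1 hW2 hWV hW0 p (mem_filter.1 hp).2
  · rw [sum_const, nsmul_eq_mul]
    have h1 := card_filter_le (univ : Finset (Fin (s + 1) × Fin (s + 1))) (fun p => p.1 ≠ p.2)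
    rw [card_univ, Fintype.card_prod, Fintype.card_fin] at h1
    have h2 : ((((univ : Finset (Fin (s + 1) × Fin (s + 1))).filter (fun p => p.1 ≠ p.2)).card : ℕ) : ℝ) ≤ (s + 1) ^ 2 := by
      have : (((univ : Finset (Fin (s + 1) × Fin (s + 1))).filter (fun p => p.1 ≠ p.2)).card) ≤ (s + 1) ^ 2 := by rw [sq]; exact h1
      exact_mod_cast this
    rw [mul_assoc]
    exact mul_le_mul_of_nonneg_right h2 (by positivity)

end

/-- sums over short ranges -/
theorem cell (hSB : S_SBF) (s Q0 : ℕ) (hQ0 : 1 ≤ Q0) (hs : 1 ≤ s) : ∃ (C : ℝ) (κ Y₀ : ℕ), 0 ≤ C ∧ ∀ L : ℕ, Y₀ ≤ L → ∀ (τ : Fin (s + 1) → Option Bool)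
    (q a : Fin s → ℤ) (N₁ : ℕ), (∀ i, q i ≠ 0 ∧ |q i| ≤ Q0) → (∀ i, |a i| + Q0 * N₁ ≤ (L : ℤ) ^ 2) → (N₁ : ℤ) ≤ (L : ℤ) ^ 2 →
    (∀ i j, i ≠ j → q i * a j ≠ q j * a i) → (∀ i, a i ≠ 0) →
    ∑ n ∈ Icc (1 : ℤ) L, ∏ i, ww 2 (τ i) (C1 q i * (n + N₁) + H1 a i) ≤
      C * L * ∑ p ∈ (univ : Finset (Fin (s + 1) × Fin (s + 1))).filter (fun p => p.1 ≠ p.2), psi κ (C1 q p.1 * H1 a p.2 - C1 q p.2 * H1 a p.1) := by
  classical
  obtain ⟨C, κ, Y₀, hC, h⟩ := hSB (Fin (s + 1)) Q0 1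
  obtain ⟨S, hS⟩ : ∃ S : Finset (Fin (s + 1) × Fin (s + 1)), S = univ.filter (fun p => p.1 ≠ p.2) := ⟨_, rfl⟩
  obtain ⟨N1, hN1⟩ : ∃ N1 : ℕ, Real.exp 2 ≤ N1 := ⟨_, Nat.le_ceil _⟩
  refine ⟨C, κ * S.card, Y₀ + N1, hC, fun L hL τ q a N₁ hq ha hN₁ hnd hne => ?_⟩
  have hL0 : (0 : ℝ) < L := by
    have : 0 < Real.exp 2 := Real.exp_pos 2
    have h1 : (0 : ℝ) < N1 := this.trans_le hN1
    have h2 : (N1 : ℝ) ≤ L := by exact_mod_cast (by omega : N1 ≤ L)
    linarith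
  have hdis : ∀ i j : Fin (s + 1), i ≠ j → C1 q i * H1 a j ≠ C1 q j * H1 a i := by
    intro i j
    refine Fin.cases ?_ (fun i => ?_) i
    · refine Fin.cases ?_ (fun j => ?_) j
      · intro h; exact absurd rfl h
      · intro _
        rw [C1_zero, H1_zero, H1_succ, C1_succ, one_mul, mul_zero]
        exact hne j
    · refine Fin.cases ?_ (fun j => ?_) j
      · intro _
        rw [C1_zero, H1_zero, H1_succ, C1_succ, one_mul, mul_zero]
        exact (hne i).symm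
      · intro hij
        rw [C1_succ, C1_succ, H1_succ, H1_succ]
        exact hnd i j (fun h => hij (by rw [h]))
  have hC1 : ∀ i, C1 q i ≠ 0 ∧ |C1 q i| ≤ Q0 := by
    intro i
    refine Fin.cases ?_ (fun i => ?_) i
    · rw [C1_zero, abs_one]
      exact ⟨one_ne_zero, by exact_mod_cast hQ0⟩
    · rw [C1_succ]
      exact hq i
  have h1 := h L (by omega) 2 le_rfl (by
    rw [pow_one]
    push_cast
    rw [Real.le_log_iff_exp_le hL0]
    refine hN1.trans ?_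
    exact_mod_cast (by omega : N1 ≤ L)) τ (C1 q) (fun i => C1 q i * N₁ + H1 a i) hC1 ?_ ?_
  · refine le_trans (le_of_eq ?_) (h1.trans ?_)
    · apply sum_congr rfl
      intro n _
      apply prod_congr rfl
      intro i _
      congr 1
      ring
    · apply mul_le_mul_of_nonneg_left _ (by positivity)
      have h2 : ∏ i, ∏ j, (if i = j then 1 else gg (C1 q i * (C1 q j * N₁ + H1 a j) - C1 q j * (C1 q i * N₁ + H1 a i)).natAbs) ^ κ =
          ∏ p ∈ S, gg (C1 q p.1 * H1 a p.2 - C1 q p.2 * H1 a p.1).natAbs ^ κ := by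
        symm
        rw [hS, prod_filter]
        refine (Fintype.prod_prod_type _).trans ?_
        apply prod_congr rfl
        intro l _
        apply prod_congr rfl
        intro l' _
        simp only
        have e1 : C1 q l * (C1 q l' * (N₁ : ℤ) + H1 a l') - C1 q l' * (C1 q l * N₁ + H1 a l) = C1 q l * H1 a l' - C1 q l' * H1 a l := by ring
        rw [e1]
        by_cases hll : l = l'
        · rw [if_pos hll, if_neg (by simpa using hll), one_pow]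
        · rw [if_neg hll, if_pos hll]
      rw [h2]
      have hSn : S.Nonempty := by
        refine ⟨(0, Fin.succ ⟨0, hs⟩), ?_⟩
        rw [hS, mem_filter]
        exact ⟨mem_univ _, fun h => absurd (show (0 : Fin (s + 1)) = Fin.succ ⟨0, hs⟩ from h).symm (Fin.succ_ne_zero _)⟩
      refine (prod_le_sum_pow S hSn _ (fun p _ => pow_nonneg (zero_le_one.trans (one_le_gg _)) _)).trans ?_
      rw [← hS]
      apply sum_le_sum
      intro p hp
      rw [hS, mem_filter] at hp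
      unfold psi
      rw [if_neg (sub_ne_zero.2 (hdis _ _ hp.2)), ← pow_mul]
  · intro i
    refine Fin.cases ?_ (fun i => ?_) i
    · rw [C1_zero, H1_zero, one_mul, add_zero, abs_of_nonneg (by positivity)]
      exact hN₁
    · rw [C1_succ, H1_succ]
      have h2 : |q i * (N₁ : ℤ)| ≤ Q0 * N₁ := by
        rw [abs_mul, abs_of_nonneg (show (0 : ℤ) ≤ N₁ by positivity)]
        exact mul_le_mul_of_nonneg_right (hq i).2 (by positivity)
      have := abs_add_le (q i * (N₁ : ℤ)) (a i)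
      have := ha i
      linarith
  · intro i j hij heq
    apply hdis i j hij
    linarith

end Pool.Agent.Y820.LL
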