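import Pool.Agent.Y820.LL.B
import Pool.Agent.Y820.LF.CF

set_option autoImplicit false

/-! The theorem on joint correlations. -/

namespace Pool.Agent.Y820.LL
open Finset
open Pool.Agent.H373R2.T7 (lamI lamzI lamz Vz Vz_pos Vz_inv_small lamI_nonneg lamzI_nonneg)
open Pool.Agent.W93.HD (gg one_le_gg)
open Pool.Agent.W93.DG (hh logX hh_small)
open Pool.Agent.TH894.SM (dl Om Pos)
open Pool.Agent.Y820.LT (S_R w wc w_nonneg Ch shf PP gam gam_le Blk shf_upd shf_upd_ne upd_sum psi_even prod_le_sum_pow B3 B3_nonneg B3_sum B3_use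
  expo expo_card blk_inj blk_card exists_small2 icc_cast)
open Pool.Agent.Y820.LF (S_SBF ww ww_nonneg C1 H1 C1_zero C1_succ H1_zero H1_succ gam_romq gam_zeroq Fj f0 g0 g0_nonneg blocks B2 B2_nonneg B2_sum B2_use
  expo_sum par_K)

/-- the summand -/
noncomputable def fL {k : ℕ} (u : ℕ → ℝ) (τ0 : Bool) (q a : Fin (k + 1) → ℤ) (n : ℕ) : ℝ :=
  g0 τ0 n * (∏ i : Fin k, lamI (q i.succ * (n : ℤ) + a i.succ)) * uI u (q 0 * (n : ℤ) + a 0)

lemma prod_erase_zero {k : ℕ} (F : Fin (k + 1) → ℝ) : ∏ i ∈ univ.erase (0 : Fin (k + 1)), F i = ∏ i : Fin k, F i.succ := by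
  rw [Fin.univ_succ, erase_cons, prod_map]
  rfl

lemma DL_eq {k t t' : ℕ} (θ : ℕ → ℝ) (u : ℕ → ℝ) (τ0 : Bool) (b Y N : ℕ) (e : Fin (k + 1) → ℕ → ℤ) (q h : Fin (k + 1) → ℤ)
    (x : Fin (k + 1) → Ch t t') (hY : ∀ n : ℕ, n ∈ Icc 1 N → ∀ i, q i * (n : ℤ) + shf b e h x i ≤ Y) :
    DL (fun n => θ n.toNat) u τ0 b 2 Y N e q h 0 x = ∑ n ∈ Icc 1 N, θ n * fL u τ0 q (fun i => shf b e h x i) n := by
  unfold DL
  rw [← icc_cast (fun n => θ n.toNat * Fj τ0 b 2 Y N e q h 0 x n * Gu u Y (q 0 * n + shf b e h x 0)) N]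
  apply sum_congr rfl
  intro n hn
  have hn' := mem_Icc.1 hn
  unfold Fj Gu f0 fL
  rw [if_pos (⟨by omega, by omega⟩ : (1 : ℤ) ≤ n ∧ (n : ℤ) ≤ N), if_pos (hY n hn 0), Int.toNat_natCast]
  have h2 : (if τ0 = true then w 2 true (n : ℤ) else 1) = g0 τ0 n := by
    unfold g0
    congr 1
    unfold w lamI
    rw [if_pos rfl, if_pos (by omega : (1 : ℤ) ≤ n), Int.toNat_natCast]
  have h3 : ∏ i ∈ univ.erase (0 : Fin (k + 1)), wc 2 Y (decide (0 < i)) (q i * (n : ℤ) + shf b e h x i) =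
      ∏ i : Fin k, lamI (q i.succ * (n : ℤ) + shf b e h x i.succ) := by
    rw [prod_erase_zero]
    apply prod_congr rfl
    intro i _
    unfold wc w
    rw [if_pos (hY n hn i.succ), if_pos (by simp)]
  rw [h2, h3]
  ring

/-- the kinds of the forms -/
def tauL (k : ℕ) (τ0 : Bool) : Fin (k + 2) → Option Bool :=
  Fin.cons (if τ0 then some true else none) (Fin.cons none (fun _ : Fin k => some true) : Fin (k + 1) → Option Bool)

lemma fL_le {k : ℕ} (u : ℕ → ℝ) (hu : ∀ n, |u n| ≤ 1) (τ0 : Bool) (q a : Fin (k + 1) → ℤ) (n : ℕ) (hn : 1 ≤ n) :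
    |fL u τ0 q a n| ≤ ∏ i, ww 2 (tauL k τ0 i) (C1 q i * (n : ℤ) + H1 a i) := by
  rw [Fin.prod_univ_succ, Fin.prod_univ_succ]
  have h1 : ww 2 (tauL k τ0 0) (C1 q 0 * (n : ℤ) + H1 a 0) = g0 τ0 n := by
    rw [C1_zero, H1_zero, one_mul, add_zero]
    unfold tauL g0
    rw [Fin.cons_zero]
    cases τ0
    · simp [ww]
    · simp only [if_true]
      unfold ww w lamI
      simp only [if_true]
      rw [if_pos (by omega : (1 : ℤ) ≤ n), Int.toNat_natCast]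
  have h2 : ww 2 (tauL k τ0 (Fin.succ 0)) (C1 q (Fin.succ 0) * (n : ℤ) + H1 a (Fin.succ 0)) = 1 := by
    unfold tauL
    rw [Fin.cons_succ, Fin.cons_zero]
    rfl
  have h3 : ∀ i : Fin k, ww 2 (tauL k τ0 i.succ.succ) (C1 q i.succ.succ * (n : ℤ) + H1 a i.succ.succ) = lamI (q i.succ * (n : ℤ) + a i.succ) := by
    intro i
    unfold tauL
    rw [Fin.cons_succ, Fin.cons_succ, C1_succ, H1_succ]
    rfl
  rw [h1, h2, one_mul]
  simp only [h3]
  unfold fL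
  have h4 : 0 ≤ g0 τ0 n * ∏ i : Fin k, lamI (q i.succ * (n : ℤ) + a i.succ) :=
    mul_nonneg (g0_nonneg _ _) (prod_nonneg fun i _ => lamI_nonneg _)
  rw [abs_mul, abs_of_nonneg h4]
  have h5 : |uI u (q 0 * (n : ℤ) + a 0)| ≤ 1 := by
    unfold uI
    split_ifs
    · exact hu _
    · simp
  calc _ ≤ (g0 τ0 n * ∏ i : Fin k, lamI (q i.succ * (n : ℤ) + a i.succ)) * 1 := mul_le_mul_of_nonneg_left h5 h4
    _ = _ := mul_one _

/-- a short range -/
lemma short {k : ℕ} (u : ℕ → ℝ) (hu : ∀ n, |u n| ≤ 1) (θ : ℕ → ℝ) (hθ : ∀ n, |θ n| ≤ 1) (τ0 : Bool) (q a : Fin (k + 1) → ℤ) (N₁ N L : ℕ)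
    (h1 : N₁ ≤ N) (h2 : N ≤ N₁ + L) :
    |∑ n ∈ Icc 1 N, θ n * fL u τ0 q a n| ≤ |∑ n ∈ Icc 1 N₁, θ n * fL u τ0 q a n| +
      ∑ n ∈ Icc (1 : ℤ) L, ∏ i, ww 2 (tauL k τ0 i) (C1 q i * (n + N₁) + H1 a i) := by
  classical
  have hsp : ∑ n ∈ Icc 1 N, θ n * fL u τ0 q a n = ∑ n ∈ Icc 1 N₁, θ n * fL u τ0 q a n + ∑ n ∈ Ioc N₁ N, θ n * fL u τ0 q a n := by
    rw [← sum_union]
    · apply sum_congr _ (fun _ _ => rfl)
      ext n
      rw [mem_union, mem_Icc, mem_Icc, mem_Ioc]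
      omega
    · rw [disjoint_left]
      intro n hn hn'
      rw [mem_Icc] at hn
      rw [mem_Ioc] at hn'
      omega
  rw [hsp]
  refine (abs_add_le _ _).trans (add_le_add le_rfl ?_)
  refine (abs_sum_le_sum_abs _ _).trans ?_
  calc ∑ n ∈ Ioc N₁ N, |θ n * fL u τ0 q a n| ≤ ∑ n ∈ Ioc N₁ N, ∏ i, ww 2 (tauL k τ0 i) (C1 q i * (n : ℤ) + H1 a i) := by
        apply sum_le_sum
        intro n hn
        rw [mem_Ioc] at hn
        rw [abs_mul]
        have h3 := fL_le u hu τ0 q a n (by omega)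
        calc |θ n| * |fL u τ0 q a n| ≤ 1 * |fL u τ0 q a n| := mul_le_mul_of_nonneg_right (hθ n) (abs_nonneg _)
          _ = |fL u τ0 q a n| := one_mul _
          _ ≤ _ := h3
    _ ≤ ∑ n ∈ Ioc N₁ (N₁ + L), ∏ i, ww 2 (tauL k τ0 i) (C1 q i * (n : ℤ) + H1 a i) := by
        apply sum_le_sum_of_subset_of_nonneg (Ioc_subset_Ioc_right h2)
        intro n _ _
        exact prod_nonneg fun i _ => ww_nonneg _ _ _
    _ = ∑ n ∈ Icc 1 L, ∏ i, ww 2 (tauL k τ0 i) (C1 q i * ((n : ℤ) + N₁) + H1 a i) := by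
        symm
        refine sum_nbij' (fun n => n + N₁) (fun n => n - N₁) ?_ ?_ ?_ ?_ ?_
        · intro n hn
          rw [mem_Icc] at hn
          rw [mem_Ioc]
          omega
        · intro n hn
          rw [mem_Ioc] at hn
          rw [mem_Icc]
          omega
        · intro n _
          omega
        · intro n hn
          rw [mem_Ioc] at hn
          omega
        · intro n _
          push_cast
          rfl
    _ = _ := by
        rw [← icc_cast (fun n => ∏ i, ww 2 (tauL k τ0 i) (C1 q i * (n + N₁) + H1 a i)) L]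

end Pool.Agent.Y820.LL
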