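import Pool.Agent.Y820.LL.C

set_option autoImplicit false

/-! The theorem on joint correlations. -/

namespace Pool.Agent.Y820.LL
open Finset
open Pool.Agent.H373R2.T7 (lamI lamzI lamz Vz Vz_pos Vz_inv_small lamI_nonneg lamzI_nonneg)
open Pool.Agent.W93.HD (gg one_le_gg)
open Pool.Agent.W93.DG (hh logX hh_small)
open Pool.Agent.TH894.SM (dl Om Pos)
open Pool.Agent.Y820.LT (S_R w wc w_nonneg Ch shf PP gam gam_le Blk shf_upd shf_upd_ne upd_sum psi_even prod_le_sum_pow B3 B3_nonneg B3_sum B3_use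
  expo expo_card blk_inj blk_card exists_small2 icc_cast)
open Pool.Agent.Y820.LF (S_SBF ww ww_nonneg C1 H1 C1_zero C1_succ H1_zero H1_succ gam_romq gam_zeroq Fj f0 g0 g0_nonneg blocks B2 B2_nonneg B2_sum B2_use
  expo_sum par_K)

/-- the large correlations -/
noncomputable def BL {s t t' : ℕ} (θ : ℤ → ℝ) (u : ℕ → ℝ) (τ0 : Bool) (b Y : ℕ) (e : Fin s → ℕ → ℤ) (q h : Fin s → ℤ) (j : Fin s) (NN : Finset ℕ) (δ : ℝ)
    (x : Fin s → Ch t t') : ℝ := ∑ N ∈ NN, DL θ u τ0 b 2 Y N e q h j x ^ 2 / (δ ^ 2 * Y ^ 2)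

lemma BL_nonneg {s t t' : ℕ} (θ : ℤ → ℝ) (u : ℕ → ℝ) (τ0 : Bool) (b Y : ℕ) (e : Fin s → ℕ → ℤ) (q h : Fin s → ℤ) (j : Fin s) (NN : Finset ℕ) (δ : ℝ)
    (x : Fin s → Ch t t') : 0 ≤ BL θ u τ0 b Y e q h j NN δ x := sum_nonneg fun N _ => by positivity

theorem main (u : ℕ → ℝ) (hu : ∀ n, |u n| ≤ 1) (hSB : S_SBF) (hR : S_R) (hP : S_Pu u) (b : ℕ) (hb : 2 ≤ b) (k Q0 B P₀ : ℕ) (hQ0 : 1 ≤ Q0) (hP₀ : 1 ≤ P₀)
    (ε ρ θ₀ : ℝ) (hε : 0 < ε) (hρ : 0 < ρ) (hθ₀ : 0 < θ₀) (hθ1 : θ₀ ≤ 1) (τ0 : Bool) :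
    ∃ D X₀ : ℕ, ∀ X : ℕ, X₀ ≤ X →
    ∀ (κ : Type) (T : Finset κ) (q h : κ → Fin (k + 1) → ℤ) (e : κ → Fin (k + 1) → ℕ → ℤ) (θ : κ → ℕ → ℝ),
    (∀ g ∈ T, ∀ i, q g i ≠ 0 ∧ |q g i| ≤ Q0) → (∀ g ∈ T, ∀ i j, e g i j ≠ 0 ∧ |e g i j| < b) →
    (∀ g ∈ T, ∀ i, |h g i| ≤ (B : ℤ) * X) → (∀ g ∈ T, ∀ n, |θ g n| ≤ 1) →
    ∃ S : Fin (k + 1) → Finset ℕ, (∀ i, ∀ ν ∈ S i, P₀ ≤ ν) ∧ (∀ i, b * ∑ ν ∈ S i, (b : ℝ) ^ ν ≤ θ₀ * X) ∧ (∀ i, (S i).card ≤ D) ∧
      ∃ E ⊆ T, (E.card : ℝ) ≤ ρ * T.card ∧ ∀ g ∈ T, g ∉ E → ∀ a : Fin (k + 1) → ℤ, (∀ i, a i = h g i + ∑ ν ∈ S i, e g i ν * (b : ℤ) ^ ν) →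
        ∀ N : ℕ, N ≤ X → |∑ n ∈ Icc 1 N, θ g n * fL u τ0 (q g) a n| ≤ ε * X := by
  classical
  obtain ⟨R, A₀, hR1, hA3, havg⟩ := avgL u hSB hR hP b hb
  obtain ⟨s, hs⟩ : ∃ s, s = k + 1 := ⟨_, rfl⟩
  obtain ⟨A, hA⟩ : ∃ A, A = Q0 + B + 3 := ⟨_, rfl⟩
  have hb0 : (0 : ℝ) < b := by exact_mod_cast (by omega : 0 < b)
  have hA0 : (0 : ℝ) < A := by exact_mod_cast (by omega : 0 < A)
  obtain ⟨P₁, hP₁⟩ : ∃ P₁ : ℕ, b * A / θ₀ ≤ (b : ℝ) ^ P₁ := by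
    obtain ⟨P₁, hP₁⟩ := pow_unbounded_of_one_lt (b * A / θ₀ : ℝ) (by exact_mod_cast (by omega : 1 < b) : (1 : ℝ) < b)
    exact ⟨P₁, hP₁.le⟩
  obtain ⟨t', ht'⟩ : ∃ t', t' = 4 * (k + 1) + 1 := ⟨_, rfl⟩
  obtain ⟨R', hR'1, hblk⟩ := blocks b hb R A₀ t' P₀ P₁ hR1 (by omega) hP₀
  obtain ⟨Cc, κ₀, Y₀, hCc0, hcell⟩ := cell hSB (k + 1) Q0 hQ0 (by omega)
  obtain ⟨C2, hC2, hrom⟩ := gam_romq hR b hb Q0 κ₀
  obtain ⟨C5, hC5⟩ : ∃ C5 : ℝ, C5 = (((k + 1 : ℕ) : ℝ) + 1) ^ 2 * (C2 * R') := ⟨_, rfl⟩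
  have hC50 : 0 ≤ C5 := by rw [hC5]; positivity
  obtain ⟨C6, hC6⟩ : ∃ C6 : ℝ, C6 = 8 * C5 / ρ + 1 := ⟨_, rfl⟩
  have hC60 : 0 < C6 := by rw [hC6]; positivity
  have hC56 : C5 / C6 ≤ ρ / 8 := by
    rw [div_le_div_iff₀ hC60 (by norm_num), hC6]
    have : ρ * (8 * C5 / ρ + 1) = 8 * C5 + ρ := by field_simp
    rw [this]
    linarith
  obtain ⟨M', hM'1, hM'2⟩ : ∃ M' : ℕ, 1 ≤ M' ∧ 4 * Cc * C6 ≤ ε * M' := by
    obtain ⟨M1, hM1⟩ := exists_nat_ge (4 * Cc * C6 / ε)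
    refine ⟨M1 + 1, by omega, ?_⟩
    rw [div_le_iff₀ hε] at hM1
    push_cast
    nlinarith
  have hM'0 : (0 : ℝ) < M' := by exact_mod_cast hM'1
  obtain ⟨δ, hδ⟩ : ∃ δ : ℝ, δ = ε / (2 * (b * A)) := ⟨_, rfl⟩
  have hδ0 : 0 < δ := by rw [hδ]; positivity
  obtain ⟨δ₀, hδ₀⟩ : ∃ δ₀ : ℝ, δ₀ = ρ * δ ^ 2 / (16 * (M' + 1)) := ⟨_, rfl⟩
  have hδ₀0 : 0 < δ₀ := by rw [hδ₀]; positivity
  obtain ⟨t, ht⟩ := havg (k + 1) t' R' Q0 (by omega) hQ0 δ₀ hδ₀0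
  obtain ⟨k1, hk1⟩ := ht t le_rfl
  obtain ⟨m₀, hm₀1, hm₀2, hm₀3⟩ : ∃ m₀ : ℕ, 1 ≤ m₀ ∧ 8 * ((1 : ℕ) * (((k + 1 : ℕ) : ℝ) ^ 2 + ((k + 1 : ℕ) : ℝ)) : ℝ) ≤ ρ / 2 * m₀ ∧ 36 * (k + 1) * t ^ 2 ≤ m₀ := by
    obtain ⟨m1, hm1⟩ := exists_nat_ge (8 * ((1 : ℕ) * (((k + 1 : ℕ) : ℝ) ^ 2 + ((k + 1 : ℕ) : ℝ)) : ℝ) / (ρ / 2))
    refine ⟨m1 + 36 * (k + 1) * t ^ 2 + 1, by omega, ?_, by omega⟩
    rw [div_le_iff₀ (by positivity)] at hm1
    have h1 : (m1 : ℝ) ≤ ((m1 + 36 * (k + 1) * t ^ 2 + 1 : ℕ) : ℝ) := by exact_mod_cast (by omega : m1 ≤ m1 + 36 * (k + 1) * t ^ 2 + 1)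
    have h2 := mul_le_mul_of_nonneg_left h1 (show (0 : ℝ) ≤ ρ / 2 by positivity)
    linarith
  obtain ⟨k2, hk2⟩ := hblk m₀
  obtain ⟨W0, hW0⟩ : ∃ W0 : ℕ, W0 = 1 + 3 * t + t' := ⟨_, rfl⟩
  obtain ⟨k₀, hk₀⟩ : ∃ k₀, k₀ = k1 + k2 + R' * m₀ + 2 * Q0 * W0 + Q0 * t' + P₁ + 4 := ⟨_, rfl⟩
  refine ⟨3 * t + t', b ^ k₀ + M' * Y₀ + A * M' ^ 2 + M' + 1, fun X hX κ T q h e θ hq he hHb hθb => ?_⟩
  have hMY : M' ≤ X := by omega
  obtain ⟨K, hKk, hK1, hAX, hK2, hK3⟩ := par_K b hb A k₀ (by omega) X (by omega)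
  have hXY : X ≤ b ^ K := (Nat.le_mul_of_pos_left _ (by omega)).trans hAX
  obtain ⟨J, J', hPos, hBlk, hJs, hJ's, hdis, hJc⟩ := hk2 K (by omega)
  have hY0 : 0 < b ^ K := Nat.pow_pos (by omega)
  have hX0 : (0 : ℝ) < X := by exact_mod_cast (by omega : 0 < X)
  obtain ⟨L, hL⟩ : ∃ L, L = X / M' + 1 := ⟨_, rfl⟩
  have hXL : X < M' * L := by
    rw [hL, mul_add, mul_one]
    have := Nat.div_add_mod X M'
    have := Nat.mod_lt X hM'1
    omega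
  have hLX : M' * L ≤ X + M' := by
    rw [hL, mul_add, mul_one]
    have := Nat.mul_div_le X M'
    omega
  have hL1 : 1 ≤ L := by rw [hL]; exact Nat.le_add_left 1 _
  obtain ⟨NN, hNN⟩ : ∃ NN : Finset ℕ, NN = (range (M' + 1)).image (fun g => g * L) := ⟨_, rfl⟩
  have hNNc : NN.card ≤ M' + 1 := by
    rw [hNN]
    refine card_image_le.trans ?_
    rw [card_range]
  have hNNb : ∀ N ∈ NN, N ≤ b ^ K := by
    intro N hN
    rw [hNN, mem_image] at hN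
    obtain ⟨g, hg, rfl⟩ := hN
    rw [mem_range] at hg
    have h1 : g * L ≤ M' * L := Nat.mul_le_mul_right _ (by omega)
    have h2 : 2 * X ≤ A * X := Nat.mul_le_mul_right _ (by omega)
    have h3 : M' * L ≤ 2 * X := by omega
    exact h1.trans (h3.trans (h2.trans hAX))
  -- the sets
  obtain ⟨Ω, hΩ⟩ : ∃ Ω, Ω = Om J t := ⟨_, rfl⟩
  obtain ⟨Cs, hCs⟩ : ∃ Cs, Cs = Fintype.piFinset J' := ⟨_, rfl⟩
  have hJ'c : ∀ m, m₀ ≤ (J' m).card := blk_card J' hBlk (by omega)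
  have hCc : m₀ ≤ Cs.card := by
    rw [hCs, Fintype.card_piFinset]
    have h1 : ∏ _m : Fin t', m₀ ≤ ∏ m : Fin t', (J' m).card := prod_le_prod' (fun m _ => hJ'c m)
    rw [prod_const, card_univ, Fintype.card_fin] at h1
    exact (Nat.le_self_pow (by omega) m₀).trans h1
  have hCn : Cs.Nonempty := card_pos.1 (by omega)
  have hΩn : Ω.Nonempty := by
    rw [hΩ]
    unfold Om
    rw [Fintype.piFinset_nonempty]
    intro c
    have := hJc c.1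
    exact card_pos.1 (by omega)
  have hPn : (PP (k + 1) Ω Cs).Nonempty := by
    unfold PP
    rw [Fintype.piFinset_nonempty]
    intro _
    exact hΩn.product hCn
  have hΩlt : ∀ ω ∈ Ω, ∀ c, ω c < K := by
    intro ω hω c
    rw [hΩ] at hω
    unfold Om at hω
    rw [Fintype.mem_piFinset] at hω
    have := (mem_Ico.1 (hJs _ (hω c))).2
    omega
  -- the sizes
  have hYz : ((b ^ K : ℕ) : ℤ) = (b : ℤ) ^ K := by push_cast; ring
  have hgω : ∀ g ∈ T, ∀ i, ∀ ω ∈ Ω, |gam b (e g i) ω| ≤ (3 * t : ℕ) * ((b ^ K : ℕ) : ℤ) := by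
    intro g hg i ω hω
    have := gam_le b (e g i) (he g hg i) K (by omega) ω (hΩlt ω hω)
    rw [Fintype.card_prod, Fintype.card_fin, Fintype.card_fin, ← hYz] at this
    exact this
  have hgc : ∀ g ∈ T, ∀ i, ∀ c ∈ Cs, |gam b (e g i) c| ≤ (t' : ℕ) * ((b ^ K : ℕ) : ℤ) := by
    intro g hg i c hc
    rw [hCs, Fintype.mem_piFinset] at hc
    have := gam_le b (e g i) (he g hg i) K (by omega) c (fun m => mem_range.1 (hBlk.sub m (hc m)))
    rw [Fintype.card_fin, ← hYz] at this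
    exact this
  have hhY : ∀ g ∈ T, ∀ i, |h g i| ≤ ((b ^ K : ℕ) : ℤ) := by
    intro g hg i
    refine (hHb g hg i).trans ?_
    have : B * X ≤ b ^ K := by
      calc B * X ≤ A * X := Nat.mul_le_mul_right _ (by omega)
        _ ≤ b ^ K := hAX
    exact_mod_cast this
  obtain ⟨W, hW⟩ : ∃ W : ℤ, W = W0 * ((b ^ K : ℕ) : ℤ) := ⟨_, rfl⟩
  have hYnn : (0 : ℤ) ≤ ((b ^ K : ℕ) : ℤ) := Int.natCast_nonneg _
  have hWnn : 0 ≤ W := by rw [hW]; positivity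
  have hW1 : ∀ g ∈ T, ∀ x ∈ PP (k + 1) Ω Cs, ∀ i, |shf b (e g) (h g) x i| ≤ W := by
    intro g hg x hx i
    unfold PP at hx
    rw [Fintype.mem_piFinset] at hx
    have h1 := mem_product.1 (hx i)
    have h2 := hgω g hg i _ h1.1
    have h3 := hgc g hg i _ h1.2
    have h4 := hhY g hg i
    unfold shf
    have h5 := abs_add_le (h g i + gam b (e g i) (x i).1) (gam b (e g i) (x i).2)
    have h6 := abs_add_le (h g i) (gam b (e g i) (x i).1)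
    rw [hW, hW0]
    push_cast at h2 h3 h4 ⊢
    linarith
  have hW2 : ∀ g ∈ T, ∀ i, ∀ ω ∈ Ω, |h g i + gam b (e g i) ω| ≤ W := by
    intro g hg i ω hω
    have h2 := hgω g hg i _ hω
    have h4 := hhY g hg i
    have h6 := abs_add_le (h g i) (gam b (e g i) ω)
    rw [hW, hW0]
    push_cast at h2 h4 hYnn ⊢
    nlinarith
  have hK1' : K - 1 < b ^ (K - 1) := Nat.lt_pow_self (by omega)
  have hWV : 2 * (Q0 : ℤ) * W ≤ (b : ℤ) ^ (2 * K - 1) := by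
    have h2 : ((2 * Q0 * W0 : ℕ) : ℤ) ≤ (b : ℤ) ^ (K - 1) := by exact_mod_cast (by omega : 2 * Q0 * W0 ≤ b ^ (K - 1))
    rw [hW, hYz]
    calc 2 * (Q0 : ℤ) * ((W0 : ℤ) * (b : ℤ) ^ K) = ((2 * Q0 * W0 : ℕ) : ℤ) * (b : ℤ) ^ K := by push_cast; ring
      _ ≤ (b : ℤ) ^ (K - 1) * (b : ℤ) ^ K := mul_le_mul_of_nonneg_right h2 (by positivity)
      _ = _ := by rw [← pow_add]; congr 1; omega
  -- the averages
  have hD : ∀ g ∈ T, ∀ N ∈ NN, ∑ x ∈ PP (k + 1) Ω Cs, DL (fun n => θ g n.toNat) u τ0 b 2 (b ^ K) N (e g) (q g) (h g) 0 x ^ 2 ≤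
      δ₀ * ((b ^ K : ℕ) : ℝ) ^ 2 * (PP (k + 1) Ω Cs).card := by
    intro g hg N hN
    rw [hΩ, hCs]
    exact hk1 K (by omega) (fun n => θ g n.toNat) (fun n => hθb g hg _) τ0 (q g) (hq g hg) (e g) (he g hg) J hPos J' hBlk (h g) (hhY g hg) N (hNNb N hN) 0
  have hY0r : (0 : ℝ) < ((b ^ K : ℕ) : ℝ) := by exact_mod_cast hY0
  have hPc0 : (0 : ℝ) ≤ (PP (k + 1) Ω Cs).card := Nat.cast_nonneg _
  have q1 : ∀ g ∈ T, ∑ x ∈ PP (k + 1) Ω Cs, BL (fun n => θ g n.toNat) u τ0 b (b ^ K) (e g) (q g) (h g) 0 NN δ x ≤ ρ / 16 * (PP (k + 1) Ω Cs).card := by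
    intro g hg
    unfold BL
    rw [sum_comm]
    refine (sum_le_sum (g := fun _ => δ₀ / δ ^ 2 * (PP (k + 1) Ω Cs).card) fun N hN => ?_).trans ?_
    · rw [← sum_div, div_le_iff₀ (by positivity)]
      refine (hD g hg N hN).trans (le_of_eq ?_)
      field_simp
    · rw [sum_const, nsmul_eq_mul]
      have h1 : (NN.card : ℝ) ≤ M' + 1 := by exact_mod_cast hNNc
      calc (NN.card : ℝ) * (δ₀ / δ ^ 2 * (PP (k + 1) Ω Cs).card) ≤ (M' + 1) * (δ₀ / δ ^ 2 * (PP (k + 1) Ω Cs).card) :=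
            mul_le_mul_of_nonneg_right h1 (by positivity)
        _ = ρ / 16 * (PP (k + 1) Ω Cs).card := by
            rw [hδ₀]
            field_simp
  have q2 : ∀ g ∈ T, ∑ x ∈ PP (k + 1) Ω Cs, B2 b (e g) (q g) {h g} x ≤ ρ / 16 * (PP (k + 1) Ω Cs).card := by
    intro g hg
    have := B2_sum b (e g) (q g) {h g} (fun i => (hq g hg i).1) (ρ / 2) Ω Cs 1 m₀ (by rw [card_singleton]) hm₀1 hm₀2 hCc
      (fun i u hu v => by rw [hCs]; exact gam_zeroq b hb _ (he g hg i) J' hBlk.sep u hu v)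
    have e1 : ρ / 2 / 8 = ρ / 16 := by ring
    rw [e1] at this
    exact this
  have q5 : ∀ g ∈ T, ∑ x ∈ PP (k + 1) Ω Cs, B5 κ₀ b (e g) (q g) (h g) x / C6 ≤ ρ / 8 * (PP (k + 1) Ω Cs).card := by
    intro g hg
    rw [← sum_div, div_le_iff₀ hC60]
    have h1 := B5_sum κ₀ b (e g) (q g) (h g) Ω Cs hCn (C2 * R') (by positivity) ((b : ℤ) ^ (2 * K - 1)) W Q0 (by exact_mod_cast hQ0) (hq g hg)
      (fun i u hu hu' v hv => by
        rw [hCs]
        exact hrom t' (by omega) K (by omega) (by exact_mod_cast (by omega : Q0 * t' ≤ b ^ (K - 1))) (e g i) (he g hg i) R' J' hBlk u hu hu' v hv)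
      (hW1 g hg) (hW2 g hg) hWV hWnn
    rw [← hC5] at h1
    refine h1.trans ?_
    have h2 : C5 ≤ ρ / 8 * C6 := by rwa [div_le_iff₀ hC60] at hC56
    calc C5 * (PP (k + 1) Ω Cs).card ≤ (ρ / 8 * C6) * (PP (k + 1) Ω Cs).card := mul_le_mul_of_nonneg_right h2 hPc0
      _ = _ := by ring
  obtain ⟨cost, hcost⟩ : ∃ cost : κ → (Fin (k + 1) → Ch t t') → ℝ, cost = fun g x =>
      BL (fun n => θ g n.toNat) u τ0 b (b ^ K) (e g) (q g) (h g) 0 NN δ x + B2 b (e g) (q g) {h g} x + B5 κ₀ b (e g) (q g) (h g) x / C6 := ⟨_, rfl⟩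
  have hcost0 : ∀ g x, 0 ≤ cost g x := by
    intro g x
    rw [hcost]
    have a1 := BL_nonneg (fun n => θ g n.toNat) u τ0 b (b ^ K) (e g) (q g) (h g) 0 NN δ x
    have a2 := B2_nonneg b (e g) (q g) {h g} x
    have a3 := B5_nonneg κ₀ b (e g) (q g) (h g) x
    simp only
    positivity
  obtain ⟨x, hx, u3, hx1⟩ := exists_small2 (PP (k + 1) Ω Cs) hPn T cost B3 ρ hρ hcost0 (fun x => B3_nonneg x)
    (fun g hg => by
      rw [hcost]
      simp only [sum_add_distrib]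
      have r1 := q1 g hg
      have r2 := q2 g hg
      have r3 := q5 g hg
      linarith)
    (by rw [hΩ]; exact B3_sum J Cs m₀ hm₀1 hm₀3 hJc)
  have hxW := fun g hg => hW1 g hg x hx
  unfold PP at hx
  rw [Fintype.mem_piFinset] at hx
  have hω : ∀ i, ∀ c, (x i).1 c ∈ J c.1 := by
    intro i c
    have := (mem_product.1 (hx i)).1
    rw [hΩ] at this
    unfold Om at this
    exact Fintype.mem_piFinset.1 this c
  have hc : ∀ i, ∀ m, (x i).2 m ∈ J' m := by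
    intro i m
    have := (mem_product.1 (hx i)).2
    rw [hCs] at this
    exact Fintype.mem_piFinset.1 this m
  have hSsum : ∀ (e : Fin (k + 1) → ℕ → ℤ) (h : Fin (k + 1) → ℤ), ∀ i, h i + ∑ ν ∈ expo x i, e i ν * (b : ℤ) ^ ν = shf b e h x i := by
    intro e h i
    exact expo_sum b e x h i J J' (hω i) (hc i) hdis (B3_use x u3 i) (blk_inj J' hBlk _ (hc i))
  have hSs : ∀ i, expo x i ⊆ Ico P₀ (K - 1 - P₁) := by
    intro i ν hν
    unfold expo at hν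
    rw [mem_union, mem_image, mem_image] at hν
    rcases hν with ⟨c, _, rfl⟩ | ⟨m, _, rfl⟩
    · exact hJs _ (hω i c)
    · exact hJ's _ (hc i m)
  -- the size of the changes
  have hsz : ∀ i, b * ∑ ν ∈ expo x i, (b : ℝ) ^ ν ≤ θ₀ * X := by
    intro i
    have h1 : ∑ ν ∈ expo x i, b ^ ν < b ^ (K - 1 - P₁) := Nat.geomSum_lt hb (fun ν hν => (mem_Ico.1 (hSs i hν)).2)
    have h2 : (∑ ν ∈ expo x i, (b : ℝ) ^ ν) ≤ (b : ℝ) ^ (K - 1 - P₁) := by exact_mod_cast h1.le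
    have h3 : (b : ℝ) ^ (K - 1 - P₁) * (b : ℝ) ^ P₁ ≤ A * X := by
      rw [← pow_add]
      have : K - 1 - P₁ + P₁ = K - 1 := by omega
      rw [this]
      exact_mod_cast hK2.le
    have h4 : (b : ℝ) ^ (K - 1 - P₁) * (b * A / θ₀) ≤ A * X :=
      (mul_le_mul_of_nonneg_left hP₁ (by positivity)).trans h3
    have h5 : (b : ℝ) ^ (K - 1 - P₁) * b * A ≤ θ₀ * X * A := by
      rw [mul_div_assoc', div_le_iff₀ hθ₀] at h4
      linarith
    have h6 : (b : ℝ) ^ (K - 1 - P₁) * b ≤ θ₀ * X := le_of_mul_le_mul_right h5 hA0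
    calc b * ∑ ν ∈ expo x i, (b : ℝ) ^ ν ≤ b * (b : ℝ) ^ (K - 1 - P₁) := mul_le_mul_of_nonneg_left h2 hb0.le
      _ ≤ θ₀ * X := by linarith
  refine ⟨expo x, fun i ν hν => (mem_Ico.1 (hSs i hν)).1, hsz, fun i => expo_card x i, T.filter (fun g => 1 ≤ cost g x), filter_subset _ _, ?_, ?_⟩
  · refine le_trans ?_ hx1
    rw [card_eq_sum_ones, Nat.cast_sum, sum_filter]
    apply sum_le_sum
    intro g _
    split_ifs with h1
    · push_cast
      exact h1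
    · exact hcost0 g x
  · intro g hg hgE a ha N hN
    have hlt : cost g x < 1 := by
      by_contra hcon
      push Not at hcon
      exact hgE (mem_filter.2 ⟨hg, hcon⟩)
    rw [hcost] at hlt
    simp only at hlt
    have a1 := BL_nonneg (fun n => θ g n.toNat) u τ0 b (b ^ K) (e g) (q g) (h g) 0 NN δ x
    have a2 := B2_nonneg b (e g) (q g) {h g} x
    have a3 := div_nonneg (B5_nonneg κ₀ b (e g) (q g) (h g) x) hC60.le
    have ha' : a = fun i => shf b (e g) (h g) x i := by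
      funext i
      rw [ha i, hSsum]
    obtain ⟨v1, v2⟩ := B2_use b (e g) (q g) {h g} x (by linarith) (h g) (mem_singleton_self _)
    have v5 : B5 κ₀ b (e g) (q g) (h g) x ≤ C6 := by
      have : B5 κ₀ b (e g) (q g) (h g) x / C6 ≤ 1 := by linarith
      rwa [div_le_one hC60] at this
    -- the sizes of the constants
    have hdiff : ∀ i, |a i - h g i| ≤ (X : ℤ) := by
      intro i
      have h1 : a i - h g i = ∑ ν ∈ expo x i, e g i ν * (b : ℤ) ^ ν := by rw [ha i]; ring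
      have h2 : |((a i - h g i : ℤ) : ℝ)| ≤ θ₀ * X := by
        rw [h1]
        push_cast
        refine (abs_sum_le_sum_abs _ _).trans ?_
        refine le_trans ?_ (hsz i)
        rw [mul_sum]
        apply sum_le_sum
        intro ν _
        rw [abs_mul, abs_of_nonneg (show (0 : ℝ) ≤ (b : ℝ) ^ ν by positivity)]
        apply mul_le_mul_of_nonneg_right _ (by positivity)
        have h2 := (he g hg i ν).2
        have h3 : ((|e g i ν| : ℤ) : ℝ) ≤ ((b : ℤ) : ℝ) := by exact_mod_cast h2.le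
        push_cast at h3
        exact h3
      have h3 := h2.trans (mul_le_mul_of_nonneg_right hθ1 hX0.le)
      rw [one_mul] at h3
      exact_mod_cast h3
    have hasz : ∀ i, |a i| ≤ ((B + 1 : ℕ) : ℤ) * X := by
      intro i
      have h1 := hdiff i
      have h2 := hHb g hg i
      have h3 := abs_add_le (a i - h g i) (h g i)
      rw [sub_add_cancel] at h3
      push_cast
      linarith
    -- the point of the grid
    obtain ⟨N₁, hN₁⟩ : ∃ N₁, N₁ = N / L * L := ⟨_, rfl⟩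
    have hN₁1 : N₁ ≤ N := by rw [hN₁]; exact Nat.div_mul_le_self N L
    have hN₁2 : N ≤ N₁ + L := by
      rw [hN₁]
      have h1 := Nat.div_add_mod N L
      have h2 := Nat.mod_lt N hL1
      rw [mul_comm] at h1
      omega
    have hN₁3 : N₁ ∈ NN := by
      rw [hNN, hN₁, mem_image]
      refine ⟨N / L, ?_, rfl⟩
      rw [mem_range]
      have : N / L < M' := by
        rw [Nat.div_lt_iff_lt_mul hL1]
        omega
      omega
    have hsh := short u hu (θ g) (hθb g hg) τ0 (q g) a N₁ N L hN₁1 hN₁2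
    have hgr : |∑ n ∈ Icc 1 N₁, θ g n * fL u τ0 (q g) a n| ≤ δ * ((b ^ K : ℕ) : ℝ) := by
      have h1 := DL_eq (θ g) u τ0 b (b ^ K) N₁ (e g) (q g) (h g) x (by
        intro n hn i
        rw [mem_Icc] at hn
        have e1 := (hq g hg i).2
        have e4 : (n : ℤ) ≤ X := by exact_mod_cast hn.2.trans (hN₁1.trans hN)
        have e5 : q g i * (n : ℤ) ≤ Q0 * X := by
          calc q g i * (n : ℤ) ≤ |q g i| * (n : ℤ) := mul_le_mul_of_nonneg_right (le_abs_self _) (by positivity)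
            _ ≤ Q0 * X := mul_le_mul e1 e4 (by positivity) (by positivity)
        have e6 := abs_le.1 (hasz i)
        have e8 : ((A * X : ℕ) : ℤ) ≤ ((b ^ K : ℕ) : ℤ) := by exact_mod_cast hAX
        have e9 : ((A * X : ℕ) : ℤ) = Q0 * X + (B + 1) * X + 2 * X := by rw [hA]; push_cast; ring
        have e10 : (0 : ℤ) ≤ X := by positivity
        have e11 : shf b (e g) (h g) x i = a i := by rw [ha']
        rw [e11]
        have e12 := e6.2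
        push_cast at e12 e8 e9 ⊢
        linarith)
      rw [ha', ← h1]
      have h2 : DL (fun n => θ g n.toNat) u τ0 b 2 (b ^ K) N₁ (e g) (q g) (h g) 0 x ^ 2 / (δ ^ 2 * ((b ^ K : ℕ) : ℝ) ^ 2) ≤ 1 := by
        refine le_trans ?_ (show BL (fun n => θ g n.toNat) u τ0 b (b ^ K) (e g) (q g) (h g) 0 NN δ x ≤ 1 by linarith)
        unfold BL
        exact single_le_sum (f := fun N => DL (fun n => θ g n.toNat) u τ0 b 2 (b ^ K) N (e g) (q g) (h g) 0 x ^ 2 / (δ ^ 2 * ((b ^ K : ℕ) : ℝ) ^ 2))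
          (fun N _ => by positivity) hN₁3
      rw [div_le_one (by positivity)] at h2
      apply abs_le_of_sq_le_sq _ (by positivity)
      rw [mul_pow]
      exact h2
    have hLsq : A * X ≤ L ^ 2 := by
      have h1 : A * M' ^ 2 ≤ X := by omega
      have h2 : (A * X) * M' ^ 2 ≤ L ^ 2 * M' ^ 2 := by
        calc (A * X) * M' ^ 2 = (A * M' ^ 2) * X := by ring
          _ ≤ X * X := Nat.mul_le_mul_right _ h1
          _ ≤ (M' * L) * (M' * L) := Nat.mul_le_mul hXL.le hXL.le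
          _ = _ := by ring
      exact Nat.le_of_mul_le_mul_right h2 (by positivity)
    have hcl := hcell L (by
      have h1 : M' * Y₀ < M' * L := by omega
      exact (Nat.lt_of_mul_lt_mul_left h1).le) (tauL k τ0) (q g) a N₁ (hq g hg) (by
        intro i
        have e1 := hasz i
        have e2 : (N₁ : ℤ) ≤ X := by exact_mod_cast hN₁1.trans hN
        have e3 : (Q0 : ℤ) * N₁ ≤ Q0 * X := mul_le_mul_of_nonneg_left e2 (by positivity)
        have e4 : ((A * X : ℕ) : ℤ) ≤ ((L ^ 2 : ℕ) : ℤ) := by exact_mod_cast hLsq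
        have e9 : ((A * X : ℕ) : ℤ) = Q0 * X + (B + 1) * X + 2 * X := by rw [hA]; push_cast; ring
        have e10 : (0 : ℤ) ≤ X := by positivity
        push_cast at e1 e4 e9 ⊢
        linarith) (by
        have e2 : N₁ ≤ X := hN₁1.trans hN
        have e3 : X ≤ A * X := Nat.le_mul_of_pos_left _ (by omega)
        exact_mod_cast (e2.trans e3).trans hLsq) (by rw [ha']; exact v1) (by rw [ha']; exact v2)
    have hcl2 : ∑ n ∈ Icc (1 : ℤ) L, ∏ i, ww 2 (tauL k τ0 i) (C1 (q g) i * (n + N₁) + H1 a i) ≤ Cc * L * C6 := by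
      refine hcl.trans ?_
      apply mul_le_mul_of_nonneg_left _ (by positivity)
      have h1 := v5
      unfold B5 at h1
      rw [ha']
      exact h1
    have hfin1 : δ * ((b ^ K : ℕ) : ℝ) ≤ ε / 2 * X := by
      have h2 : ((b ^ K : ℕ) : ℝ) ≤ b * A * X := by exact_mod_cast hK3
      calc δ * ((b ^ K : ℕ) : ℝ) ≤ δ * (b * A * X) := mul_le_mul_of_nonneg_left h2 hδ0.le
        _ = ε / 2 * X := by rw [hδ]; field_simp
    have hfin2 : Cc * L * C6 ≤ ε / 2 * X := by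
      have h1 : (M' : ℝ) * L ≤ 2 * X := by exact_mod_cast (by omega : M' * L ≤ 2 * X)
      have h2 : M' * (Cc * L * C6) ≤ M' * (ε / 2 * X) := by
        calc M' * (Cc * L * C6) = (Cc * C6) * (M' * L) := by ring
          _ ≤ (Cc * C6) * (2 * X) := mul_le_mul_of_nonneg_left h1 (by positivity)
          _ = (4 * Cc * C6) * (X / 2) := by ring
          _ ≤ (ε * M') * (X / 2) := mul_le_mul_of_nonneg_right hM'2 (by positivity)
          _ = _ := by ring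
      exact le_of_mul_le_mul_left h2 hM'0
    linarith

end Pool.Agent.Y820.LL
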