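import Pool.Agent.Y820.LT.Stm
import Pool.Agent.TH894.CW2

set_option autoImplicit false

/-!
# Project LL (helper820): joint correlations of the von Mangoldt function and the Liouville function

Definitions and the exact statement of the task LL-P.
-/

namespace Pool.Agent.Y820.LL
open Finset
open Pool.Agent.W93.DG (hh)
open Pool.Agent.TH894.SM (dl Om Pos)

/-- an arithmetic function, continued by zero to the integers -/
noncomputable def uI (u : ℕ → ℝ) (n : ℤ) : ℝ := if 1 ≤ n then u n.toNat else 0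

/-- the function, up to `Y` -/
noncomputable def Gu (u : ℕ → ℝ) (Y : ℕ) (n : ℤ) : ℝ := if n ≤ Y then uI u n else 0

/-- the autocorrelation of `Gu` -/
noncomputable def PCu (u : ℕ → ℝ) (Y : ℕ) (h : ℤ) : ℝ := ∑ m ∈ Icc (1 : ℤ) Y, Gu u Y m * Gu u Y (m + h)

/-- LL-P: the autocorrelations at the differences of the random sums are small in mean square -/
def S_Pu (u : ℕ → ℝ) : Prop := ∀ b : ℕ, 2 ≤ b → ∃ R A : ℕ, 1 ≤ R ∧ 3 ≤ A ∧ ∀ δ : ℝ, 0 < δ → ∃ t₀ : ℕ, ∀ t : ℕ, t₀ ≤ t →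
    ∃ k₀ : ℕ, ∀ K : ℕ, k₀ ≤ K →
    ∀ e : ℕ → ℤ, (∀ j, e j ≠ 0 ∧ |e j| < b) → ∀ J : Fin 3 → Finset ℕ, Pos b R K (hh b A K) J →
    ∑ ω ∈ Om J t, ∑ ω' ∈ Om J t, PCu u (b ^ K) (∑ c, dl b e (ω' c) - ∑ c, dl b e (ω c)) ^ 2 ≤
      δ * ((b ^ K : ℕ) : ℝ) ^ 2 * ((Om J t).card : ℝ) ^ 2

end Pool.Agent.Y820.LL
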